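import Pool.Agent.Helper71.FK.Final
import Pool.Agent.Helper71.FK.Defs

/-! Unions of far apart balls: sets containing a given ball and having large asymmetry. -/

open MeasureTheory Metric Set Filter Topology
open scoped ENNReal ContDiff

namespace Pool.Agent.Helper80.FKBalls

open Pool.Agent.Helper71.FK (E om)
open Pool.Agent.Helper71.FKFinal (asym)

theorem vol_ball {N : ℕ} (hN : 1 ≤ N) (x : E N) {r : ℝ} (hr : 0 ≤ r) :
    volume (ball x r) = ENNReal.ofReal (r ^ N * om N) := by
  have : Nonempty (Fin N) := ⟨⟨0, hN⟩⟩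
  rw [Measure.addHaar_ball volume x hr, finrank_euclideanSpace, Fintype.card_fin,
    ENNReal.ofReal_mul (by positivity)]
  congr 1
  rw [om, ofReal_measureReal]

theorem om_pos {N : ℕ} : 0 < om N := by
  rw [om]
  exact ENNReal.toReal_pos (measure_ball_pos volume _ one_pos).ne' measure_ball_lt_top.ne

/-- centres -/
noncomputable def cen {N : ℕ} (hN : 1 ≤ N) (i : ℕ) : E N :=
  EuclideanSpace.single (⟨0, hN⟩ : Fin N) (4 * (i : ℝ))

theorem dist_cen {N : ℕ} (hN : 1 ≤ N) {i j : ℕ} (h : i ≠ j) : 4 ≤ dist (cen hN i) (cen hN j) := by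
  rw [cen, cen, EuclideanSpace.dist_single_same, Real.dist_eq, ← mul_sub, abs_mul]
  have h1 : (1 : ℝ) ≤ |(i : ℝ) - j| := by
    have h2 : (1 : ℤ) ≤ |(i : ℤ) - j| := by
      apply Int.one_le_abs
      intro h3
      apply h
      have : (i : ℤ) = j := by linarith
      exact_mod_cast this
    have h3 : ((1 : ℤ) : ℝ) ≤ ((|(i : ℤ) - j| : ℤ) : ℝ) := by exact_mod_cast h2
    simpa using h3
  rw [abs_of_pos (by norm_num : (0 : ℝ) < 4)]
  linarith

/-- `exists_balls` -/
theorem exists_balls {N : ℕ} (hN : 1 ≤ N) {a : ℝ} (ha : 0 < a) (ha1 : a < 1) :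
    ∃ Ω : Set (E N), IsOpen Ω ∧ volume Ω = ENNReal.ofReal (om N) ∧
      ball (0 : E N) (a ^ ((N : ℝ)⁻¹)) ⊆ Ω ∧ 2 * (1 - a) ≤ asym Ω := by
  have hN0 : N ≠ 0 := by omega
  obtain ⟨k, hk⟩ := exists_nat_gt (1 / a)
  have hk0 : (0 : ℝ) < k := lt_trans (by positivity) hk
  have hkN : 0 < k := by exact_mod_cast hk0
  have hka : 1 ≤ k * a := by
    rw [div_lt_iff₀ ha] at hk
    exact hk.le
  -- volumes (relative) of the components
  set v : ℕ → ℝ := fun i => if i = 0 then a else (1 - a) / k with hv
  have hv0 : ∀ i, 0 < v i := by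
    intro i
    simp only [hv]
    split_ifs
    · exact ha
    · exact div_pos (by linarith) hk0
  have hva : ∀ i, v i ≤ a := by
    intro i
    simp only [hv]
    split_ifs
    · exact le_rfl
    · rw [div_le_iff₀ hk0]
      nlinarith
  set ρ : ℕ → ℝ := fun i => v i ^ ((N : ℝ)⁻¹) with hρ
  have hρ0 : ∀ i, 0 < ρ i := fun i => Real.rpow_pos_of_pos (hv0 i) _
  have hρN : ∀ i, ρ i ^ N = v i := fun i => Real.rpow_inv_natCast_pow (hv0 i).le hN0
  have hρ1 : ∀ i, ρ i ≤ 1 := by
    intro i
    exact Real.rpow_le_one (hv0 i).le ((hva i).trans ha1.le) (by positivity)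
  have hvol : ∀ i, volume (ball (cen hN i) (ρ i)) = ENNReal.ofReal (v i * om N) := by
    intro i
    rw [vol_ball hN _ (hρ0 i).le, hρN]
  set Ω : Set (E N) := ⋃ i ∈ Finset.range (k + 1), ball (cen hN i) (ρ i) with hΩ
  have hdisj : ∀ i j, i ≠ j → Disjoint (ball (cen hN i) (ρ i)) (ball (cen hN j) (ρ j)) := by
    intro i j hij
    apply ball_disjoint_ball
    have := dist_cen hN hij
    have h1 := hρ1 i
    have h2 := hρ1 j
    linarith
  have hΩo : IsOpen Ω := isOpen_biUnion fun i _ => isOpen_ball
  have hΩv : volume Ω = ENNReal.ofReal (om N) := by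
    rw [hΩ, measure_biUnion_finset (fun i _ j _ hij => hdisj i j hij)
      (fun i _ => measurableSet_ball)]
    rw [Finset.sum_congr rfl (fun i _ => hvol i),
      ← ENNReal.ofReal_sum_of_nonneg (fun i _ => mul_nonneg (hv0 i).le om_pos.le),
      ← Finset.sum_mul]
    congr 1
    have : ∑ i ∈ Finset.range (k + 1), v i = 1 := by
      rw [Finset.sum_range_succ']
      simp only [hv, Nat.add_eq_zero_iff, one_ne_zero, and_false, if_false, if_true,
        Finset.sum_const, Finset.card_range, nsmul_eq_mul]
      field_simp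
      ring
    rw [this, one_mul]
  have hΩr : volume.real Ω = om N := by
    rw [measureReal_def, hΩv, ENNReal.toReal_ofReal om_pos.le]
  refine ⟨Ω, hΩo, hΩv, ?_, ?_⟩
  · have h0 : ball (cen hN 0) (ρ 0) ⊆ Ω := by
      rw [hΩ]
      exact subset_biUnion_of_mem (u := fun i => ball (cen hN i) (ρ i))
        (Finset.mem_coe.2 (Finset.mem_range.2 (by omega)))
    have hc : cen hN 0 = (0 : E N) := by
      rw [cen]
      simp
    have hr : ρ 0 = a ^ ((N : ℝ)⁻¹) := by
      simp [hρ, hv]
    rw [hc, hr] at h0
    exact h0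
  · -- every unit ball meets `Ω` in volume at most `a * om N`
    have key : ∀ x : E N, volume.real (Ω ∩ ball x 1) ≤ a * om N := by
      intro x
      by_cases hne : (Ω ∩ ball x 1).Nonempty
      · obtain ⟨y, hy, hyx⟩ := hne
        rw [hΩ, mem_iUnion₂] at hy
        obtain ⟨i, _, hyi⟩ := hy
        have hsub : Ω ∩ ball x 1 ⊆ ball (cen hN i) (ρ i) := by
          rintro z ⟨hz, hzx⟩
          rw [hΩ, mem_iUnion₂] at hz
          obtain ⟨j, _, hzj⟩ := hz
          by_cases hij : i = j
          · rw [hij]; exact hzj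
          · exfalso
            have h4 := dist_cen hN hij
            rw [mem_ball] at hyx hzx hyi hzj
            have h1 := hρ1 i
            have h2 := hρ1 j
            have t1 : dist (cen hN i) (cen hN j) ≤ dist (cen hN i) y + dist y (cen hN j) :=
              dist_triangle _ _ _
            have t2 : dist y (cen hN j) ≤ dist y x + dist x (cen hN j) := dist_triangle _ _ _
            have t3 : dist x (cen hN j) ≤ dist x z + dist z (cen hN j) := dist_triangle _ _ _
            rw [dist_comm (cen hN i) y] at t1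
            rw [dist_comm x z] at t3
            linarith
        calc volume.real (Ω ∩ ball x 1) ≤ volume.real (ball (cen hN i) (ρ i)) :=
              measureReal_mono hsub measure_ball_lt_top.ne
          _ = v i * om N := by
              rw [measureReal_def, hvol, ENNReal.toReal_ofReal (mul_nonneg (hv0 i).le om_pos.le)]
          _ ≤ a * om N := mul_le_mul_of_nonneg_right (hva i) om_pos.le
      · rw [not_nonempty_iff_eq_empty] at hne
        rw [hne, measureReal_empty]
        exact mul_nonneg ha.le om_pos.le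
    apply le_csInf
    · refine ⟨_, 0, 1, one_pos, ?_, rfl⟩
      rw [hΩv, vol_ball hN _ zero_le_one, one_pow, one_mul]
    · rintro t ⟨x, r, hr, hvr, rfl⟩
      have hr1 : r = 1 := by
        rw [hΩv, vol_ball hN _ hr.le, ENNReal.ofReal_eq_ofReal_iff (by have := @om_pos N; positivity)
          om_pos.le] at hvr
        have h1 : r ^ N = 1 := by
          have h2 : (r ^ N - 1) * om N = 0 := by linarith
          rcases mul_eq_zero.1 h2 with h3 | h3
          · linarith
          · exact absurd h3 om_pos.ne'
        exact (pow_eq_one_iff_of_nonneg hr.le hN0).1 h1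
      subst hr1
      rw [hΩr, le_div_iff₀ om_pos]
      have hmB : MeasurableSet (ball x 1) := measurableSet_ball
      have hmΩ : MeasurableSet Ω := hΩo.measurableSet
      have hBr : volume.real (ball x 1) = om N := by
        rw [measureReal_def, vol_ball hN _ zero_le_one, one_pow, one_mul,
          ENNReal.toReal_ofReal om_pos.le]
      have hΩf : volume Ω ≠ ⊤ := by rw [hΩv]; exact ENNReal.ofReal_ne_top
      have hBf : volume (ball x (1 : ℝ)) ≠ ⊤ := measure_ball_lt_top.ne
      have e1 : volume.real (Ω \ ball x 1) + volume.real (Ω ∩ ball x 1) = om N := by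
        rw [← hΩr]
        have := measureReal_sdiff_add_inter (μ := volume) (s := Ω) hmB hΩf
        exact this
      have e2 : volume.real (ball x 1 \ Ω) + volume.real (ball x 1 ∩ Ω) = om N := by
        rw [← hBr]
        exact measureReal_sdiff_add_inter (μ := volume) (s := ball x 1) hmΩ hBf
      have e3 : volume.real (symmDiff Ω (ball x 1))
          = volume.real (Ω \ ball x 1) + volume.real (ball x 1 \ Ω) := by
        rw [Set.symmDiff_def, measureReal_union disjoint_sdiff_sdiff (hmB.diff hmΩ)
          (ne_top_of_le_ne_top hΩf (measure_mono sdiff_subset))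
          (ne_top_of_le_ne_top hBf (measure_mono sdiff_subset))]
      rw [inter_comm (ball x 1) Ω] at e2
      have := key x
      rw [e3]
      linarith

end Pool.Agent.Helper80.FKBalls
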